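import Pool.Agent.Q50.HK.Lat

/-!
# Existence of marked hyperkähler manifolds with a given Néron-Severi group and a nef isotropic class
-/

set_option autoImplicit false
set_option maxHeartbeats 4000000
set_option synthInstance.maxHeartbeats 400000

universe u

namespace Pool.Agent.Q50.HK

namespace Moduli

variable {n : ℕ} {T : Moduli.{u} n}

theorem continuous_form (T : Moduli.{u} n) : Continuous fun w : V n => T.B w w := by
  have h : ∀ w : V n, T.B w w = ∑ i, w i * T.B (fun j => if i = j then 1 else 0) w := by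
    intro w
    conv_lhs => rw [LinearMap.pi_apply_eq_sum_univ T.B w]
    rw [LinearMap.sum_apply]
    rfl
  simp_rw [h]
  refine continuous_finsetSum _ fun i _ => ?_
  exact (continuous_apply i).mul (LinearMap.continuous_of_finiteDimensional _)

theorem continuous_left (T : Moduli.{u} n) (x : V n) : Continuous fun w : V n => T.B w x :=
  LinearMap.continuous_of_finiteDimensional (T.B.flip x)

theorem countable_int : {x : V n | IsInt x}.Countable := by
  refine (Set.countable_range (fun f : Fin n → ℤ => (fun i => (f i : ℝ)))).mono ?_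
  intro x hx
  choose f hf using hx
  exact ⟨f, funext fun i => (hf i).symm⟩

/-- Baire: a generic element of a subspace is on none of countably many hyperplanes. -/
theorem generic (T : Moduli.{u} n) (S : Submodule ℝ (V n)) (L : Set (V n)) (hL : L.Countable)
    (hS : ∀ l ∈ L, ∃ s ∈ S, T.B s l ≠ 0) {U : Set (V n)} (hU : IsOpen U) {u : V n} (hu : u ∈ S)
    (huU : u ∈ U) : ∃ v ∈ S, v ∈ U ∧ ∀ l ∈ L, T.B v l ≠ 0 := by
  have : CompleteSpace S := FiniteDimensional.complete ℝ S
  have : Countable L := hL.to_subtype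
  let φ : L → (S →ₗ[ℝ] ℝ) := fun l => (T.B.flip (l : V n)).comp S.subtype
  let f : L → Set S := fun l => {s | φ l s ≠ 0}
  have hc : ∀ l, Continuous (φ l) := fun l => LinearMap.continuous_of_finiteDimensional _
  have ho : ∀ l, IsOpen (f l) := fun l => isOpen_ne.preimage (hc l)
  have hd : ∀ l, Dense (f l) := by
    intro l
    obtain ⟨s, hs, h⟩ := hS l l.2
    have hsur : Function.Surjective (φ l) := by
      intro c
      refine ⟨(c / T.B s l) • ⟨s, hs⟩, ?_⟩
      rw [map_smul, smul_eq_mul]
      change c / T.B s l * T.B s l = c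
      exact div_mul_cancel₀ _ h
    exact (dense_compl_singleton (0 : ℝ)).preimage
      (LinearMap.isOpenMap_of_finiteDimensional (φ l) hsur)
  have hD := dense_iInter_of_isOpen ho hd
  obtain ⟨v, hvU, hv⟩ := hD.inter_open_nonempty _ (hU.preimage continuous_subtype_val)
    ⟨⟨u, hu⟩, huU⟩
  exact ⟨v, v.2, hvU, fun l hl => Set.mem_iInter.1 hv ⟨l, hl⟩⟩

theorem span_pair (hT : T.Facts) {a b : V n} (g1 : 0 < T.B a a)
    (g2 : T.B a b ^ 2 < T.B a a * T.B b b) :
    Module.finrank ℝ (Submodule.span ℝ {a, b}) = 2 ∧ T.PosDef (Submodule.span ℝ {a, b}) := by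
  have key : ∀ x y : ℝ, (x ≠ 0 ∨ y ≠ 0) → 0 < T.B (x • a + y • b) (x • a + y • b) := by
    intro x y hxy
    have e : T.B a a * T.B (x • a + y • b) (x • a + y • b) =
        (x * T.B a a + y * T.B a b) ^ 2 + y ^ 2 * (T.B a a * T.B b b - T.B a b ^ 2) := by
      simp only [map_add, LinearMap.add_apply, map_smul, LinearMap.smul_apply, smul_eq_mul,
        hT.symm b a]
      ring
    have h : 0 < T.B a a * T.B (x • a + y • b) (x • a + y • b) := by
      rw [e]
      by_cases hy : y = 0
      · rw [hy]
        have hx : x ≠ 0 := by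
          rcases hxy with h | h
          · exact h
          · exact absurd hy h
        have : x * T.B a a ≠ 0 := mul_ne_zero hx g1.ne'
        have := pow_pos (abs_pos.2 this) 2
        rw [sq_abs] at this
        simpa using this
      · have h1 : 0 < y ^ 2 * (T.B a a * T.B b b - T.B a b ^ 2) :=
          mul_pos (by positivity) (by linarith)
        have h2 := sq_nonneg (x * T.B a a + y * T.B a b)
        linarith
    exact (mul_pos_iff_of_pos_left g1).1 h
  constructor
  · have hli : LinearIndependent ℝ ![a, b] := by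
      rw [LinearIndependent.pair_iff]
      intro x y hxy
      by_contra hne
      have : x ≠ 0 ∨ y ≠ 0 := by
        by_contra h
        push Not at h
        exact hne h
      have := key x y this
      rw [hxy] at this
      simp at this
    have h3 := finrank_span_eq_card hli
    have h4 : Set.range ![a, b] = {a, b} := by
      ext z
      simp only [Set.mem_range, Fin.exists_fin_two, Matrix.cons_val_zero, Matrix.cons_val_one,
        Set.mem_insert_iff, Set.mem_singleton_iff]
      exact or_congr eq_comm eq_comm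
    rw [h4] at h3
    rw [h3]
    rfl
  · intro p hp hp0
    obtain ⟨x, y, rfl⟩ := Submodule.mem_span_pair.1 hp
    apply key
    by_contra h
    push Not at h
    apply hp0
    rw [h.1, h.2]
    simp

theorem orth_span_pair {a b x : V n} :
    T.Orth (Submodule.span ℝ {a, b}) x ↔ T.B a x = 0 ∧ T.B b x = 0 := by
  constructor
  · intro h
    exact ⟨h a (Submodule.subset_span (by simp)), h b (Submodule.subset_span (by simp))⟩
  · rintro ⟨h1, h2⟩ p hp
    obtain ⟨s, t, rfl⟩ := Submodule.mem_span_pair.1 hp
    rw [map_add, map_smul, map_smul, LinearMap.add_apply, LinearMap.smul_apply,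
      LinearMap.smul_apply, h1, h2]
    simp

/-- **Existence.** -/
theorem exists_marking (hT : T.Facts) {l : V n} (hl : IsInt l) (h0 : l ≠ 0) (hq : T.B l l = 0)
    {N : Submodule ℝ (V n)} (hlN : l ∈ N) {u₀ v₀ : V n} (hu₀ : T.Orth N u₀) (hv₀ : T.Orth N v₀)
    (g1 : 0 < T.B u₀ u₀) (g2 : T.B u₀ v₀ ^ 2 < T.B u₀ u₀ * T.B v₀ v₀) :
    ∃ M, (∀ x, IsInt x → (T.Orth (T.period M) x ↔ x ∈ N)) ∧ (∀ x ∈ N, T.Orth (T.period M) x) ∧
      T.Nef M l ∧ (∀ y ∈ T.kahler M, 0 < T.B y l) ∧
      (∀ y ∈ T.kahler M, ∀ d ∈ T.mbm, T.Orth (T.period M) d → T.B l d ≠ 0 →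
        0 < T.B y d * T.B l d) := by
  -- a generic plane
  let S : Submodule ℝ (V n) := T.B.orthogonal N
  have hU : IsOpen {w : V n | 0 < T.B w w ∧ T.B w v₀ ^ 2 < T.B w w * T.B v₀ v₀} := by
    refine IsOpen.inter ?_ ?_
    · exact isOpen_lt continuous_const (continuous_form T)
    · exact isOpen_lt ((continuous_left T v₀).pow 2) ((continuous_form T).mul continuous_const)
  obtain ⟨u, huS, ⟨g1, g2⟩, hu⟩ := generic T S {x | IsInt x ∧ x ∉ N}
    (countable_int.mono fun x hx => hx.1) (by
      rintro x ⟨-, hx⟩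
      by_contra h
      push Not at h
      exact hx (mem_of_orth hT N fun s hs => h s hs)) hU (u := u₀) (fun p hp => hu₀ p hp) ⟨g1, g2⟩
  set P : Submodule ℝ (V n) := Submodule.span ℝ {u, v₀} with hPdef
  obtain ⟨hP2, hPp⟩ := span_pair hT g1 g2
  have hNP : ∀ x ∈ N, T.Orth P x := by
    intro x hx
    rw [hPdef, orth_span_pair]
    exact ⟨by rw [hT.symm]; exact huS x hx, by rw [hT.symm]; exact hv₀ x hx⟩
  have hPN : ∀ x, IsInt x → (T.Orth P x ↔ x ∈ N) := by
    intro x hx
    refine ⟨fun h => ?_, hNP x⟩
    by_contra hxN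
    rw [hPdef, orth_span_pair] at h
    exact hu x ⟨hx, hxN⟩ h.1
  have hlP := hNP l hlN
  -- a generic class of positive square
  let S₂ : Submodule ℝ (V n) := T.B.orthogonal P
  have hU₂ : IsOpen {w : V n | 0 < T.B w w ∧ 0 < T.B w l} :=
    IsOpen.inter (isOpen_lt continuous_const (continuous_form T))
      (isOpen_lt continuous_const (continuous_left T l))
  have hk1 : ∃ s, T.Orth P s ∧ 0 < T.B s l := by
    by_contra hcon
    push Not at hcon
    have : l ∈ P := by
      refine mem_of_orth hT P fun s hs => le_antisymm (hcon s hs) ?_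
      have := hcon (-s) (fun p hp => by rw [map_neg, hs p hp, neg_zero])
      rw [map_neg, LinearMap.neg_apply] at this
      linarith
    have := hPp l this h0
    linarith
  obtain ⟨s, hsP, hsl⟩ := hk1
  set k₁ : V n := s + ((|T.B s s| + 1) / (2 * T.B s l)) • l with hk₁
  have hk₁P : T.Orth P k₁ := by
    intro p hp
    rw [hk₁, map_add, map_smul, hsP p hp, hlP p hp]
    simp
  have hk₁l : T.B k₁ l = T.B s l := by
    rw [hk₁]
    simp only [map_add, LinearMap.add_apply, map_smul, LinearMap.smul_apply, smul_eq_mul, hq]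
    ring
  have hk₁k : 0 < T.B k₁ k₁ := by
    have e : T.B k₁ k₁ = T.B s s + (|T.B s s| + 1) := by
      rw [hk₁]
      simp only [map_add, LinearMap.add_apply, map_smul, LinearMap.smul_apply, smul_eq_mul, hq,
        hT.symm l s]
      field_simp
      ring
    rw [e]
    have := neg_abs_le (T.B s s)
    linarith
  obtain ⟨k, hkP, ⟨hkk, hkl⟩, hk⟩ := generic T S₂ {d | d ∈ T.mbm ∧ T.Orth P d}
    (countable_int.mono fun x hx => (hT.mbm x hx.1).1) (by
      rintro d ⟨hd, hdP⟩
      exact ⟨d, hdP, (hT.mbm d hd).2.ne⟩) hU₂ (u := k₁) hk₁P ⟨hk₁k, by rw [hk₁l]; exact hsl⟩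
  replace hkP : T.Orth P k := hkP
  -- no walls near `l`
  obtain ⟨C, hC⟩ := hT.bounded
  set r : ℝ := T.B k l with hr
  set t₀ : ℝ := r * (|C| + 1) with ht₀
  have ht₀p : 0 < t₀ := by positivity
  have hxP : ∀ t : ℝ, T.Orth P (k + t • l) := by
    intro t p hp
    rw [map_add, map_smul, hkP p hp, hlP p hp]
    simp
  have hxx : ∀ t : ℝ, T.B (k + t • l) (k + t • l) = T.B k k + 2 * t * r := by
    intro t
    simp only [map_add, LinearMap.add_apply, map_smul, LinearMap.smul_apply, smul_eq_mul, hq,
      hT.symm l k]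
    ring
  have hxl : ∀ t : ℝ, T.B (k + t • l) l = r := by
    intro t
    simp only [map_add, LinearMap.add_apply, map_smul, LinearMap.smul_apply, smul_eq_mul, hq]
    ring
  have hfar : ∀ t, t₀ ≤ t → ∀ d ∈ T.mbm, T.Orth P d → T.B l d ≠ 0 → T.B (k + t • l) d ≠ 0 := by
    intro t ht d hd hdP hld hxd
    have htp : 0 < t := lt_of_lt_of_le ht₀p ht
    have hpos : 0 < T.B (k + t • l) (k + t • l) := by
      rw [hxx]
      positivity
    have h1 := isotropic_bound hT hP2 hPp (hxP t) hpos hlP hq hdP hxd
    rw [hxl, hxx] at h1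
    obtain ⟨m, hm⟩ := hT.integral l d hl (hT.mbm d hd).1
    have h2 : 1 ≤ T.B l d ^ 2 := by
      rw [hm] at hld ⊢
      have : m ≠ 0 := by
        rintro rfl
        simp at hld
      have : 1 ≤ m ^ 2 := by
        have := Int.one_le_abs this
        have := sq_abs m
        nlinarith
      exact_mod_cast this
    have h3 : T.B k k + 2 * t * r ≤ T.B l d ^ 2 * (T.B k k + 2 * t * r) := by
      have : 0 ≤ T.B k k + 2 * t * r := by positivity
      nlinarith
    have h4 : r ^ 2 * -T.B d d ≤ r ^ 2 * |C| := by
      apply mul_le_mul_of_nonneg_left _ (by positivity)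
      have := hC d hd
      have := le_abs_self C
      linarith
    have h5 : 2 * t₀ * r ≤ 2 * t * r := by
      have := mul_le_mul_of_nonneg_right ht (show 0 ≤ 2 * r by positivity)
      linarith
    have h6 : 2 * t₀ * r < r ^ 2 * |C| := by linarith
    rw [ht₀] at h6
    have h7 : 0 ≤ |C| := abs_nonneg C
    have h8 : 0 < r ^ 2 := by positivity
    nlinarith
  set x : V n := k + t₀ • l with hx
  have hsign : ∀ d ∈ T.mbm, T.Orth P d → T.B l d ≠ 0 → 0 < T.B x d * T.B l d := by
    intro d hd hdP hld
    by_contra hcon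
    push Not at hcon
    have hm2 : 0 < T.B l d ^ 2 := by positivity
    refine hfar (t₀ - T.B x d / T.B l d) ?_ d hd hdP hld ?_
    · have : 0 ≤ -(T.B x d / T.B l d) := by
        have e : -(T.B x d / T.B l d) = -(T.B x d * T.B l d) / T.B l d ^ 2 := by
          field_simp
        rw [e]
        apply div_nonneg _ hm2.le
        linarith
      linarith
    · have e : k + (t₀ - T.B x d / T.B l d) • l = x - (T.B x d / T.B l d) • l := by
        rw [hx]
        module
      rw [e, map_sub, map_smul, LinearMap.sub_apply, LinearMap.smul_apply, smul_eq_mul]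
      field_simp
      ring
  have hxreg : T.Regular P x := by
    refine ⟨hxP t₀, ?_, fun d hd hdP => ?_⟩
    · rw [hxx]
      positivity
    · by_cases hld : T.B l d = 0
      · have : T.B x d = T.B k d := by
          rw [hx]
          simp only [map_add, LinearMap.add_apply, map_smul, LinearMap.smul_apply, smul_eq_mul,
            hld]
          ring
        rw [this]
        exact hk d ⟨hd, hdP⟩
      · intro h
        have := hsign d hd hdP hld
        rw [h, zero_mul] at this
        exact lt_irrefl _ this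
  obtain ⟨M, hMP, hxM⟩ := hT.surjective P x hP2 hPp hxreg
  have hch := (hT.kahler M x hxM).2
  rw [hMP] at hch
  have hyl : ∀ y ∈ T.kahler M, 0 < T.B y l := by
    intro y hy
    obtain ⟨hyr, hyc⟩ := (hch y).1 hy
    exact pos_of_pos hT hP2 hPp hxreg.1 hxreg.2.1 hyr.1 hyr.2.1 hlP hq
      (by rw [hx, hxl]; exact hkl) hyc.1
  refine ⟨M, ?_, ?_, ?_, hyl, ?_⟩
  · rw [hMP]
    exact hPN
  · rw [hMP]
    exact hNP
  · intro y hy
    obtain ⟨hyr, hyc⟩ := (hch y).1 hy
    have hy1 := hyl y hy
    refine (hch _).2 ⟨⟨?_, ?_, ?_⟩, ?_, ?_⟩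
    · intro p hp
      rw [map_add, hlP p hp, hyr.1 p hp, add_zero]
    · have e : T.B (l + y) (l + y) = T.B y y + 2 * T.B y l := by
        simp only [map_add, LinearMap.add_apply, hq, hT.symm l y]
        ring
      rw [e]
      have := hyr.2.1
      linarith
    · intro d hd hdP
      rw [map_add, LinearMap.add_apply]
      by_cases hld : T.B l d = 0
      · rw [hld, zero_add]
        exact hyr.2.2 d hd hdP
      · have h1 := hsign d hd hdP hld
        have h2 := hyc.2 d hd hdP
        intro h
        have h3 : T.B y d = -T.B l d := by linarith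
        rw [h3] at h2
        nlinarith
    · rw [map_add]
      have : 0 < T.B x l := by
        rw [hx, hxl]
        exact hkl
      have := hyc.1
      linarith
    · intro d hd hdP
      have e : T.B (l + y) d = T.B l d + T.B y d := by rw [map_add, LinearMap.add_apply]
      rw [e, mul_add]
      have h2 := hyc.2 d hd hdP
      by_cases hld : T.B l d = 0
      · rw [hld, mul_zero, zero_add]
        exact h2
      · have h1 := hsign d hd hdP hld
        linarith
  · rw [hMP]
    intro y hy d hd hdP hld
    obtain ⟨hyr, hyc⟩ := (hch y).1 hy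
    have h1 := hsign d hd hdP hld
    have h2 := hyc.2 d hd hdP
    have h3 : 0 < (T.B x d) ^ 2 * (T.B y d * T.B l d) := by
      have := mul_pos h1 h2
      nlinarith
    have h4 : 0 < T.B x d ^ 2 := by
      have : T.B x d ≠ 0 := hxreg.2.2 d hd hdP
      positivity
    exact (mul_pos_iff_of_pos_left h4).1 h3

end Moduli

end Pool.Agent.Q50.HK
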