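import Pool.Agent.Q50.HK.Defs

/-!
# Lorentzian geometry of the classes of type `(1,1)`
-/

set_option autoImplicit false
set_option maxHeartbeats 4000000
set_option synthInstance.maxHeartbeats 400000

universe u

namespace Pool.Agent.Q50.HK

namespace Moduli

variable {n : ℕ} {T : Moduli.{u} n}

/-- Four dimensions cannot be mapped injectively to three. -/
theorem neg_of_orth (hT : T.Facts) {P : Submodule ℝ (V n)} (h2 : Module.finrank ℝ P = 2)
    (hP : T.PosDef P) {x y : V n} (hx : T.Orth P x) (hxx : 0 < T.B x x) (hy : T.Orth P y)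
    (hxy : T.B x y = 0) (hy0 : y ≠ 0) : T.B y y < 0 := by
  obtain ⟨W, hW3, hWp, hWn⟩ := hT.signature
  by_contra hyy
  push Not at hyy
  let f : (P × ℝ × ℝ) →ₗ[ℝ] (W →ₗ[ℝ] ℝ) :=
    { toFun := fun s => (T.B ((s.1 : V n) + s.2.1 • x + s.2.2 • y)).comp W.subtype
      map_add' := by
        intro s t
        ext w
        simp only [Prod.fst_add, Prod.snd_add, Submodule.coe_add, LinearMap.comp_apply,
          Submodule.subtype_apply, map_add, LinearMap.add_apply, map_smul, LinearMap.smul_apply,
          smul_eq_mul]
        ring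
      map_smul' := by
        intro c s
        ext w
        simp only [Prod.smul_fst, Prod.smul_snd, Submodule.coe_smul, LinearMap.comp_apply,
          Submodule.subtype_apply, map_add, LinearMap.add_apply, map_smul, LinearMap.smul_apply,
          smul_eq_mul, RingHom.id_apply]
        ring }
  have hk : LinearMap.ker f ≠ ⊥ := by
    apply LinearMap.ker_ne_bot_of_finrank_lt
    rw [Module.finrank_prod, Module.finrank_prod, h2, Module.finrank_self,
      Subspace.dual_finrank_eq, hW3]
    norm_num
  obtain ⟨s, hs, hs0⟩ := (Submodule.ne_bot_iff _).1 hk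
  obtain ⟨p, a, b⟩ := s
  set v : V n := (p : V n) + a • x + b • y with hv
  have hWv : T.Orth W v := by
    intro w hw
    have := LinearMap.congr_fun (LinearMap.mem_ker.1 hs) ⟨w, hw⟩
    rw [hT.symm]
    exact this
  have e1 : T.B v v = T.B p p + a ^ 2 * T.B x x + b ^ 2 * T.B y y := by
    rw [hv]
    simp only [map_add, LinearMap.add_apply, map_smul, LinearMap.smul_apply, smul_eq_mul,
      hT.symm x p, hT.symm y p, hT.symm y x, hx p p.2, hy p p.2, hxy]
    ring
  have hp0 : 0 ≤ T.B p p := by
    by_cases h : (p : V n) = 0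
    · rw [h]
      simp
    · exact (hP p p.2 h).le
  by_cases hv0 : v = 0
  · have h1 : T.B p v = T.B p p := by
      rw [hv]
      simp only [map_add, map_smul, smul_eq_mul, hx p p.2, hy p p.2]
      ring
    have hp : (p : V n) = 0 := by
      by_contra h
      have := hP p p.2 h
      rw [← h1, hv0] at this
      simp at this
    have h2 : T.B x v = a * T.B x x := by
      rw [hv]
      simp only [map_add, map_smul, smul_eq_mul, hT.symm x p, hx p p.2, hxy]
      ring
    have ha : a = 0 := by
      rw [hv0, map_zero] at h2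
      rcases mul_eq_zero.1 h2.symm with h | h
      · exact h
      · exact absurd h hxx.ne'
    have hb : b = 0 := by
      rw [hp, ha] at hv
      rw [hv0] at hv
      have : b • y = 0 := by
        rw [zero_smul, add_zero, zero_add] at hv
        exact hv.symm
      rcases smul_eq_zero.1 this with h | h
      · exact h
      · exact absurd h hy0
    apply hs0
    have hp' : p = 0 := Subtype.ext hp
    rw [hp', ha, hb]
    rfl
  · have := hWn v hWv hv0
    have h3 := mul_nonneg (sq_nonneg a) hxx.le
    have h4 := mul_nonneg (sq_nonneg b) hyy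
    linarith

/-- The Cauchy-Schwarz inequality on the negative definite orthogonal complement of `P` and `x`. -/
theorem cauchy (hT : T.Facts) {P : Submodule ℝ (V n)} (h2 : Module.finrank ℝ P = 2)
    (hP : T.PosDef P) {x y z : V n} (hx : T.Orth P x) (hxx : 0 < T.B x x) (hy : T.Orth P y)
    (hxy : T.B x y = 0) (hz : T.Orth P z) (hxz : T.B x z = 0) :
    T.B y z ^ 2 ≤ T.B y y * T.B z z := by
  by_cases hz0 : z = 0
  · rw [hz0]
    simp
  have hzz := neg_of_orth hT h2 hP hx hxx hz hxz hz0
  set w : V n := y - (T.B y z / T.B z z) • z with hw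
  have hww : T.B w w = T.B y y - T.B y z ^ 2 / T.B z z := by
    have hz' := hzz.ne
    rw [hw]
    simp only [map_sub, LinearMap.sub_apply, map_smul, LinearMap.smul_apply, smul_eq_mul,
      hT.symm z y]
    field_simp
    ring
  have hle : T.B w w ≤ 0 := by
    by_cases h : w = 0
    · rw [h]
      simp
    · refine (neg_of_orth hT h2 hP hx hxx ?_ ?_ h).le
      · intro p hp
        rw [hw, map_sub, map_smul, hy p hp, hz p hp]
        simp
      · rw [hw, map_sub, map_smul, hxy, hxz]
        simp
  rw [hww] at hle
  have h5 : T.B y y ≤ T.B y z ^ 2 / T.B z z := by linarith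
  have h6 := mul_le_mul_of_nonpos_right h5 hzz.le
  rw [div_mul_cancel₀ _ hzz.ne] at h6
  exact h6

/-- Reverse estimate for the products with an isotropic class. -/
theorem isotropic_bound (hT : T.Facts) {P : Submodule ℝ (V n)} (h2 : Module.finrank ℝ P = 2)
    (hP : T.PosDef P) {x l d : V n} (hx : T.Orth P x) (hxx : 0 < T.B x x) (hl : T.Orth P l)
    (hll : T.B l l = 0) (hd : T.Orth P d) (hxd : T.B x d = 0) :
    T.B l d ^ 2 * T.B x x ≤ T.B x l ^ 2 * (-T.B d d) := by
  set w : V n := l - (T.B x l / T.B x x) • x with hw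
  have h1 : T.B x w = 0 := by
    rw [hw, map_sub, map_smul, smul_eq_mul]
    field_simp
    ring
  have h3 : T.Orth P w := by
    intro p hp
    rw [hw, map_sub, map_smul, hl p hp, hx p hp]
    simp
  have h4 := cauchy hT h2 hP hx hxx h3 h1 hd hxd
  have h5 : T.B w d = T.B l d := by
    rw [hw]
    simp only [map_sub, LinearMap.sub_apply, map_smul, LinearMap.smul_apply, smul_eq_mul, hxd]
    ring
  have h6 : T.B w w = -(T.B x l ^ 2 / T.B x x) := by
    rw [hw]
    simp only [map_sub, LinearMap.sub_apply, map_smul, LinearMap.smul_apply, smul_eq_mul,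
      hT.symm l x, hll]
    field_simp
    ring
  rw [h5, h6] at h4
  have h7 := mul_le_mul_of_nonneg_right h4 hxx.le
  have h8 : -(T.B x l ^ 2 / T.B x x) * T.B d d * T.B x x = T.B x l ^ 2 * (-T.B d d) := by
    field_simp
  rw [h8] at h7
  exact h7

/-- If `x`, `y` lie in the same half of the positive cone and the isotropic class `l` has positive
product with `x`, it has positive product with `y`. -/
theorem pos_of_pos (hT : T.Facts) {P : Submodule ℝ (V n)} (h2 : Module.finrank ℝ P = 2)
    (hP : T.PosDef P) {x y l : V n} (hx : T.Orth P x) (hxx : 0 < T.B x x) (hy : T.Orth P y)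
    (hyy : 0 < T.B y y) (hl : T.Orth P l) (hll : T.B l l = 0) (hxl : 0 < T.B x l)
    (hxy : 0 < T.B x y) : 0 < T.B y l := by
  by_contra h
  push Not at h
  -- a combination of `x` and `y` orthogonal to `l`
  set z : V n := T.B x l • y - T.B y l • x with hz
  have hzl : T.B z l = 0 := by
    rw [hz]
    simp only [map_sub, LinearMap.sub_apply, map_smul, LinearMap.smul_apply, smul_eq_mul]
    ring
  have hzP : T.Orth P z := by
    intro p hp
    rw [hz, map_sub, map_smul, map_smul, hy p hp, hx p hp]
    simp
  have hzz : 0 < T.B z z := by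
    have e : T.B z z = T.B x l ^ 2 * T.B y y + 2 * (T.B x l * (-T.B y l)) * T.B x y
        + (T.B y l) ^ 2 * T.B x x := by
      rw [hz]
      simp only [map_sub, LinearMap.sub_apply, map_smul, LinearMap.smul_apply, smul_eq_mul,
        hT.symm y x]
      ring
    rw [e]
    have h1 := mul_pos (pow_pos hxl 2) hyy
    have h3 : 0 ≤ 2 * (T.B x l * (-T.B y l)) * T.B x y := by
      have : 0 ≤ -T.B y l := by linarith
      positivity
    have h4 : 0 ≤ (T.B y l) ^ 2 * T.B x x := by positivity
    linarith
  have hl0 : l ≠ 0 := by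
    intro h0
    rw [h0] at hxl
    simp at hxl
  have := neg_of_orth hT h2 hP hzP hzz hl hzl hl0
  linarith

/-- Two classes of positive square with positive product with `l` lie in the same half. -/
theorem pos_of_pos' (hT : T.Facts) {P : Submodule ℝ (V n)} (h2 : Module.finrank ℝ P = 2)
    (hP : T.PosDef P) {x y l : V n} (hx : T.Orth P x) (hxx : 0 < T.B x x) (hy : T.Orth P y)
    (hyy : 0 < T.B y y) (hl : T.Orth P l) (hll : T.B l l = 0) (hxl : 0 < T.B x l)
    (hyl : 0 < T.B y l) : 0 < T.B x y := by
  rcases lt_trichotomy (T.B x y) 0 with h | h | h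
  · exfalso
    have h1 : T.Orth P (-y) := by
      intro p hp
      rw [map_neg, hy p hp, neg_zero]
    have h3 : 0 < T.B (-y) (-y) := by
      simpa using hyy
    have h4 := pos_of_pos hT h2 hP hx hxx h1 h3 hl hll hxl (by rw [map_neg]; linarith)
    rw [map_neg, LinearMap.neg_apply] at h4
    linarith
  · exfalso
    have hy0 : y ≠ 0 := by
      intro h0
      rw [h0] at hyy
      simp at hyy
    have := neg_of_orth hT h2 hP hx hxx hy h hy0
    linarith
  · exact h

/-- Two orthogonal isotropic classes are proportional. -/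
theorem proportional (hT : T.Facts) {P : Submodule ℝ (V n)} (h2 : Module.finrank ℝ P = 2)
    (hP : T.PosDef P) {k x l : V n} (hk : T.Orth P k) (hkk : 0 < T.B k k) (hx : T.Orth P x)
    (hxx : T.B x x = 0) (hl : T.Orth P l) (hll : T.B l l = 0) (hkl : T.B k l ≠ 0)
    (hxl : T.B x l = 0) : x = (T.B k x / T.B k l) • l := by
  by_contra h
  set y : V n := x - (T.B k x / T.B k l) • l with hy
  have hy0 : y ≠ 0 := by
    intro h0
    apply h
    rw [hy] at h0
    exact sub_eq_zero.1 h0
  have h1 : T.Orth P y := by
    intro p hp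
    rw [hy, map_sub, map_smul, hx p hp, hl p hp]
    simp
  have h3 : T.B k y = 0 := by
    rw [hy, map_sub, map_smul, smul_eq_mul]
    field_simp
    ring
  have h4 : T.B y y = 0 := by
    rw [hy]
    simp only [map_sub, LinearMap.sub_apply, map_smul, LinearMap.smul_apply, smul_eq_mul,
      hT.symm l x, hxx, hll, hxl]
    ring
  have := neg_of_orth hT h2 hP hk hkk h1 h3 hy0
  linarith

/-- The form is nondegenerate. -/
theorem nondeg (hT : T.Facts) {x : V n} (h : ∀ y, T.B x y = 0) : x = 0 := by
  obtain ⟨W, hW3, hWp, hWn⟩ := hT.signature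
  by_contra hx
  have := hWn x (fun w _ => by rw [hT.symm]; exact h w) hx
  rw [h x] at this
  exact lt_irrefl _ this

/-- The double orthogonal complement of a subspace is the subspace. -/
theorem mem_of_orth (hT : T.Facts) (N : Submodule ℝ (V n)) {x : V n}
    (h : ∀ s, T.Orth N s → T.B s x = 0) : x ∈ N := by
  have hn : T.B.Nondegenerate :=
    ⟨fun y hy => nondeg hT hy, fun y hy => nondeg hT fun z => by rw [hT.symm]; exact hy z⟩
  have hr : T.B.IsRefl := fun a b hab => by rw [hT.symm]; exact hab
  have := LinearMap.BilinForm.orthogonal_orthogonal hn hr N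
  rw [← this, LinearMap.BilinForm.mem_orthogonal_iff]
  intro s hs
  rw [LinearMap.BilinForm.mem_orthogonal_iff] at hs
  exact h s fun p hp => hs p hp

end Moduli

end Pool.Agent.Q50.HK
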