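import Pool.Agent.Q50.HK.Defs

/-!
# Automorphisms and Lagrangian fibrations of hyperkähler manifolds
-/

set_option autoImplicit false

universe u

namespace Pool.Agent.Q50.HK

/-- A component of the moduli space of marked hyperkähler manifolds (see `Moduli`), with: `mon` the
monodromy group (parallel transport operators), `Aut M` the automorphisms of `M` and `act` the
action `g^*` on `H²(M, ℝ)`; `Fib M` the Lagrangian fibrations `π : M → B` with `B` normal, projective,
and connected fibres; `pull M π` the set of the classes of the line bundles `π^* A`, `A` ample on `B`;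
`Preserves M g π`: `π ∘ g = g' ∘ π` for an automorphism `g'` of `B`. -/
structure Symmetries (n : ℕ) extends Moduli.{u} n where
  /-- the monodromy group -/
  mon : Subgroup (V n ≃ₗ[ℝ] V n)
  /-- the automorphisms -/
  Aut : Mk → Type u
  /-- the action on the cohomology -/
  act : ∀ M, Aut M → (V n ≃ₗ[ℝ] V n)
  /-- the Lagrangian fibrations -/
  Fib : Mk → Type u
  /-- the classes of the pull-backs of ample line bundles -/
  pull : ∀ M, Fib M → Set (V n)
  /-- the automorphism `g` preserves the fibration -/
  Preserves : ∀ M, Aut M → Fib M → Prop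

variable {n : ℕ}

namespace Symmetries

variable (T : Symmetries.{u} n)

/-- The conclusion of the SYZ conjecture for the line bundle `L` on `M` with class `ℓ`: there are a
Lagrangian fibration `π : M → B`, an ample line bundle `A` on `B` and `k > 0` with
`L ^ k ≅ π^* A`. -/
def SYZ (M : T.Mk) (l : V n) : Prop :=
  ∃ π : T.Fib M, ∃ k : ℕ, 0 < k ∧ (k : ℝ) • l ∈ T.pull M π

/-- The automorphism `g` is parabolic: it fixes the class of a non-trivial nef line bundle with
`q = 0`, and its action on `H²(M)` has infinite order. -/
def IsParabolic (M : T.Mk) (g : T.Aut M) : Prop :=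
  (∃ l, T.NefIsotropic M l ∧ T.act M g l = l) ∧ ∀ k : ℕ, 0 < k → (T.act M g) ^ k ≠ 1

/-- Known facts: see `Moduli.Facts`. `finite_index` (Verbitsky): the monodromy group has finite index in
the group of the isometries of the lattice. `torelli` (Verbitsky, Markman): a monodromy operator
which fixes the symplectic form and maps some Kähler class to a Kähler class comes from an
automorphism. `matsushita`: if the pairs `(M, L)`, `(M', L')` are deformations of each other, `L` and
`L'` nef with `q = 0`, and `L` is as in `SYZ`, then so is `L'`. `pull`: the classes of `π^* A` are nef,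
not zero, isotropic (Fujiki); `invariant`: they are fixed by automorphisms which preserve the fibration
(the base has Picard number one); `preserves`: if the class of `L` with `L ^ k ≅ π^* A` is fixed, the
fibration is preserved, since it is given by the sections of the powers of `L`. -/
structure Facts : Prop extends T.toModuli.Facts where
  mbm_mon : ∀ φ ∈ T.mon, ∀ d ∈ T.mbm, φ d ∈ T.mbm
  finite_index : ∃ k : ℕ, 0 < k ∧ ∀ φ : V n ≃ₗ[ℝ] V n, (∀ x y, T.B (φ x) (φ y) = T.B x y) →
    (∀ x, IsInt x ↔ IsInt (φ x)) → φ ^ k ∈ T.mon
  torelli : ∀ M, ∀ φ ∈ T.mon, (∀ p ∈ T.period M, φ p = p) →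
    (∃ x ∈ T.kahler M, φ x ∈ T.kahler M) → ∃ g, T.act M g = φ
  matsushita : ∀ M M' l, T.NefIsotropic M l → T.NefIsotropic M' l → T.SYZ M l → T.SYZ M' l
  pull_nonempty : ∀ M π, (T.pull M π).Nonempty
  pull : ∀ M π, ∀ x ∈ T.pull M π, T.NefIsotropic M x
  pull_smul : ∀ M π, ∀ x ∈ T.pull M π, ∀ k : ℕ, 0 < k → (k : ℝ) • x ∈ T.pull M π
  invariant : ∀ M g π, T.Preserves M g π → ∀ x ∈ T.pull M π, T.act M g x = x
  preserves : ∀ M g π l, T.NefIsotropic M l → T.act M g l = l → ∀ k : ℕ, 0 < k →
    (k : ℝ) • l ∈ T.pull M π → T.Preserves M g π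

end Symmetries

end Pool.Agent.Q50.HK
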