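import Pool.Agent.Q50.HK.Para

/-!
# The SYZ conjecture is equivalent to a statement on parabolic automorphisms
-/

set_option autoImplicit false
set_option maxHeartbeats 4000000
set_option synthInstance.maxHeartbeats 400000

universe u

namespace Pool.Agent.Q50.HK

variable {n : ℕ}

namespace Symmetries

variable {T : Symmetries.{u} n}

open Moduli

theorem span_le_of_int {N : Submodule ℝ (V n)} {M : T.Mk}
    (hM : ∀ x, IsInt x → (T.Orth (T.period M) x ↔ x ∈ N)) {S : Set (V n)}
    (hS : N = Submodule.span ℝ S) (hSi : ∀ s ∈ S, IsInt s) :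
    Submodule.span ℝ {x : V n | T.NS M x} = N := by
  apply le_antisymm
  · rw [Submodule.span_le]
    intro x hx
    exact (hM x hx.1).1 hx.2
  · rw [hS, Submodule.span_le]
    intro s hs
    apply Submodule.subset_span
    refine ⟨hSi s hs, (hM s (hSi s hs)).2 ?_⟩
    rw [hS]
    exact Submodule.subset_span hs

/-- Projective manifolds of Picard number three. -/
theorem exists_three (hT : T.Facts) (hn : 5 ≤ n) {l : V n} (hl : IsInt l) (h0 : l ≠ 0)
    (hq : T.B l l = 0) : ∃ M, T.Projective M ∧ T.picard M = 3 ∧ T.NefIsotropic M l ∧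
      ∃ g : T.Aut M, ∃ b, T.B l b = 0 ∧ T.B b b < 0 ∧ ∀ x, T.act M g x = tv T.B l b x := by
  have hF : T.toModuli.Facts := hT.toFacts
  obtain ⟨C, hC⟩ := hT.bounded
  obtain ⟨a, ha, hla, haa, had⟩ := exists_a hF hn hl h0 hq C
  obtain ⟨z, hz, hzl⟩ := exists_z hF h0
  have hal : T.B a l = 0 := by rw [hT.symm]; exact hla
  have h1 := plane_neg hF (plane_line hF l) (orth_span_singleton.2 hla) haa
  have h2 : Submodule.span ℝ {l} ⊔ Submodule.span ℝ {a} = Submodule.span ℝ {l, a} := by
    rw [← Submodule.span_union]
    rfl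
  rw [h2] at h1
  have h3 := plane_hyp hF h1 (l := l) (z := z) (Submodule.subset_span (by simp))
    (orth_span_pair.2 ⟨hq, hal⟩) hzl.ne'
  have h4 : Submodule.span ℝ {l, a} ⊔ Submodule.span ℝ {z} = Submodule.span ℝ {l, a, z} := by
    rw [← Submodule.span_union]
    congr 1
    ext w
    simp only [Set.mem_union, Set.mem_insert_iff, Set.mem_singleton_iff, or_assoc]
  rw [h4] at h3
  have hmem : ∀ w ∈ Submodule.span ℝ {l, a, z}, ∃ x y t : ℝ, x • l + y • a + t • z = w := by
    intro w hw
    obtain ⟨x, w', hw', rfl⟩ := Submodule.mem_span_insert.1 hw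
    obtain ⟨y, t, rfl⟩ := Submodule.mem_span_pair.1 hw'
    exact ⟨x, y, t, by rw [add_assoc]⟩
  obtain ⟨M, hM1, hM2, hnef, hg⟩ := exists_parabolic hT hl h0 hq
    (N := Submodule.span ℝ {l, a, z}) (Submodule.subset_span (by simp)) h3 ha
    (Submodule.subset_span (by simp)) hla haa hC had (by
      intro d hd hld
      obtain ⟨x, y, t, rfl⟩ := hmem d hd
      rw [map_add, map_add, map_smul, map_smul, map_smul, hq, hla] at hld
      simp only [smul_eq_mul, mul_zero, zero_add] at hld
      have hlz : T.B l z ≠ 0 := by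
        rw [hT.symm]
        exact hzl.ne'
      rcases mul_eq_zero.1 hld with h | h
      · rw [h, zero_smul, add_zero]
        exact Submodule.mem_span_pair.2 ⟨x, y, rfl⟩
      · exact absurd h hlz)
  refine ⟨M, ?_, ?_, hnef, hg⟩
  · obtain ⟨k, hk⟩ := exists_nat_ge (|T.B z z|)
    have hx : IsInt (z + ((k + 1 : ℕ) : ℝ) • l) := by
      have := hz.add (hl.zsmul (k + 1))
      exact_mod_cast this
    refine ⟨z + ((k + 1 : ℕ) : ℝ) • l, ⟨hx, (hM1 _ hx).2 ?_⟩, ?_⟩
    · exact Submodule.add_mem _ (Submodule.subset_span (by simp))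
        (Submodule.smul_mem _ _ (Submodule.subset_span (by simp)))
    · have e : T.B (z + ((k + 1 : ℕ) : ℝ) • l) (z + ((k + 1 : ℕ) : ℝ) • l) =
          T.B z z + 2 * (k + 1) * T.B z l := by
        simp only [map_add, LinearMap.add_apply, map_smul, LinearMap.smul_apply, smul_eq_mul, hq,
          hT.symm l z]
        push_cast
        ring
      rw [e]
      obtain ⟨m, hm⟩ := hT.integral z l hz hl
      have hm1 : (1 : ℝ) ≤ T.B z l := by
        rw [hm] at hzl ⊢
        have : 0 < m := by exact_mod_cast hzl
        exact_mod_cast this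
      have h5 := neg_abs_le (T.B z z)
      have h6 : (0 : ℝ) ≤ k := Nat.cast_nonneg k
      nlinarith
  · rw [Moduli.picard, span_le_of_int hM1 rfl (by
      intro s hs
      simp only [Set.mem_insert_iff, Set.mem_singleton_iff] at hs
      rcases hs with rfl | rfl | rfl
      · exact hl
      · exact ha
      · exact hz)]
    have hli : LinearIndependent ℝ ![l, a, z] := by
      rw [Fintype.linearIndependent_iff]
      intro c hc
      rw [Fin.sum_univ_three] at hc
      change c 0 • l + c 1 • a + c 2 • z = 0 at hc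
      have hc2 : c 2 = 0 := by
        have := congrArg (T.B l) hc
        rw [map_add, map_add, map_smul, map_smul, map_smul, hq, hla, map_zero, hT.symm l z] at this
        simp only [smul_eq_mul, mul_zero, zero_add] at this
        rcases mul_eq_zero.1 this with h | h
        · exact h
        · exact absurd h hzl.ne'
      rw [hc2, zero_smul, add_zero] at hc
      have hc1 : c 1 = 0 := by
        have := congrArg (T.B a) hc
        rw [map_add, map_smul, map_smul, hal, map_zero] at this
        simp only [smul_eq_mul, mul_zero, zero_add] at this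
        rcases mul_eq_zero.1 this with h | h
        · exact h
        · exact absurd h haa.ne
      rw [hc1, zero_smul, add_zero] at hc
      have hc0 : c 0 = 0 := by
        rcases smul_eq_zero.1 hc with h | h
        · exact h
        · exact absurd h h0
      intro i
      fin_cases i
      · exact hc0
      · exact hc1
      · exact hc2
    have h5 := finrank_span_eq_card hli
    have h6 : Set.range ![l, a, z] = {l, a, z} := by
      ext w
      simp only [Set.mem_range, Fin.exists_fin_succ, Matrix.cons_val_zero, Matrix.cons_val_succ,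
        Set.mem_insert_iff, Set.mem_singleton_iff, IsEmpty.exists_iff, or_false]
      exact or_congr eq_comm (or_congr eq_comm eq_comm)
    rw [h6] at h5
    rw [h5]
    rfl

/-- Manifolds of Picard number two which are not projective. -/
theorem exists_two (hT : T.Facts) (hn : 5 ≤ n) {l : V n} (hl : IsInt l) (h0 : l ≠ 0)
    (hq : T.B l l = 0) : ∃ M, ¬ T.Projective M ∧ T.picard M = 2 ∧ T.NefIsotropic M l ∧
      ∃ g : T.Aut M, ∃ b, T.B l b = 0 ∧ T.B b b < 0 ∧ ∀ x, T.act M g x = tv T.B l b x := by
  have hF : T.toModuli.Facts := hT.toFacts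
  obtain ⟨C, hC⟩ := hT.bounded
  obtain ⟨a, ha, hla, haa, had⟩ := exists_a hF hn hl h0 hq C
  have hal : T.B a l = 0 := by rw [hT.symm]; exact hla
  have h1 := plane_neg hF (plane_line hF l) (orth_span_singleton.2 hla) haa
  have h2 : Submodule.span ℝ {l} ⊔ Submodule.span ℝ {a} = Submodule.span ℝ {l, a} := by
    rw [← Submodule.span_union]
    rfl
  rw [h2] at h1
  obtain ⟨M, hM1, hM2, hnef, hg⟩ := exists_parabolic hT hl h0 hq
    (N := Submodule.span ℝ {l, a}) (Submodule.subset_span (by simp)) h1 ha
    (Submodule.subset_span (by simp)) hla haa hC had (fun d hd _ => hd)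
  refine ⟨M, ?_, ?_, hnef, hg⟩
  · rintro ⟨x, ⟨hxi, hx⟩, hxx⟩
    obtain ⟨s, t, rfl⟩ := Submodule.mem_span_pair.1 ((hM1 x hxi).1 hx)
    have e : T.B (s • l + t • a) (s • l + t • a) = t ^ 2 * T.B a a := by
      simp only [map_add, LinearMap.add_apply, map_smul, LinearMap.smul_apply, smul_eq_mul, hq,
        hla, hal]
      ring
    rw [e] at hxx
    have := mul_nonneg (sq_nonneg t) (show 0 ≤ -T.B a a by linarith)
    linarith
  · rw [Moduli.picard, span_le_of_int hM1 rfl (by
      intro s hs
      simp only [Set.mem_insert_iff, Set.mem_singleton_iff] at hs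
      rcases hs with rfl | rfl
      · exact hl
      · exact ha)]
    have hli : LinearIndependent ℝ ![l, a] := by
      rw [LinearIndependent.pair_iff]
      intro s t hst
      have ht : t = 0 := by
        have := congrArg (T.B a) hst
        rw [map_add, map_smul, map_smul, hal, map_zero] at this
        simp only [smul_eq_mul, mul_zero, zero_add] at this
        rcases mul_eq_zero.1 this with h | h
        · exact h
        · exact absurd h haa.ne
      rw [ht, zero_smul, add_zero] at hst
      rcases smul_eq_zero.1 hst with h | h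
      · exact ⟨h, ht⟩
      · exact absurd h h0
    have h5 := finrank_span_eq_card hli
    have h6 : Set.range ![l, a] = {l, a} := by
      ext w
      simp only [Set.mem_range, Fin.exists_fin_two, Matrix.cons_val_zero, Matrix.cons_val_one,
        Set.mem_insert_iff, Set.mem_singleton_iff]
      exact or_congr eq_comm eq_comm
    rw [h6] at h5
    rw [h5]
    rfl

/-- **Main theorem.** -/
theorem tfae (hT : T.Facts) (hn : 5 ≤ n) :
    [(∀ M l, T.NefIsotropic M l → T.SYZ M l),
     (∀ M g, T.IsParabolic M g → ∃ π, T.Preserves M g π),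
     (∀ M g, T.Projective M → T.picard M = 3 → T.IsParabolic M g → ∃ π, T.Preserves M g π),
     (∀ M g, ¬ T.Projective M → T.picard M = 2 → T.IsParabolic M g →
        ∃ π, T.Preserves M g π)].TFAE := by
  tfae_have 1 → 2 := by
    rintro h M g ⟨⟨l, hl, hgl⟩, -⟩
    obtain ⟨π, k, hk, hkl⟩ := h M l hl
    exact ⟨π, hT.preserves M g π l hl hgl k hk hkl⟩
  tfae_have 2 → 3 := fun h M g _ _ hg => h M g hg
  tfae_have 2 → 4 := fun h M g _ _ hg => h M g hg
  tfae_have 3 → 1 := by
    intro h M l hl
    obtain ⟨M', hp, h3, hl', g, b, hlb, hbb, hg⟩ := exists_three hT hn hl.1.1 hl.2.1 hl.2.2.1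
    obtain ⟨π, hπ⟩ := h M' g hp h3 (isParabolic_of hT hl' hlb hbb hg)
    exact hT.matsushita M' M l hl' hl (syz_of_preserves hT hl' hlb hbb hg hπ)
  tfae_have 4 → 1 := by
    intro h M l hl
    obtain ⟨M', hp, h2, hl', g, b, hlb, hbb, hg⟩ := exists_two hT hn hl.1.1 hl.2.1 hl.2.2.1
    obtain ⟨π, hπ⟩ := h M' g hp h2 (isParabolic_of hT hl' hlb hbb hg)
    exact hT.matsushita M' M l hl' hl (syz_of_preserves hT hl' hlb hbb hg hπ)
  tfae_finish

end Symmetries

end Pool.Agent.Q50.HK
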